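import Mathlib
import Pool.Agent.T6.H78.CK.E8

set_option autoImplicit false

/-!
# CMO functions of order `k`

A CMO function of order (at least) `k` is a completely multiplicative `f` with
`∑ f(n) (log n)^j = 0` for `0 ≤ j < k` (for `k = 1`: a CMO function); equivalently, when the partial
sums decay like a power, the Dirichlet series of `f` has a zero of order at least `k` at `s = 0`.
-/

namespace Pool.Agent.Results.MP_768c9c_nt.HigherOrder

open Filter Topology Finset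

/-- `f` (only the values at `n ≥ 1` matter) is a CMO function of order at least `k`:
completely multiplicative, and all the series `∑ f(n) (log n)^j`, `0 ≤ j < k`, converge to `0`. For
`k = 1` these are the CMO functions. -/
structure IsCMO (k : ℕ) (f : ℕ → ℂ) : Prop where
  one : f 1 = 1
  mul : ∀ m n : ℕ, 0 < m → 0 < n → f (m * n) = f m * f n
  zero : ∀ j : ℕ, j < k → Tendsto (fun N : ℕ => ∑ n ∈ Icc 1 N, f n * ((Real.log n : ℝ) : ℂ) ^ j)
    atTop (𝓝 0)

open Classical in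
/-- Let `k ≥ 1`, let `f` be a CMO function of order at least `k` and `|f(p)| ≤ C / p` for all primes
`p`, `C` arbitrary.

(1) If `∑_p √p max(-k/p - Re f(p), 0) < ∞` (in particular if `Re f(p) ≥ -k/p` for all `p`) and
`S_f(N) = O(N^(-θ))` for some `0 < θ ≤ 1/2`, then `ζ(s) ≠ 0` for `Re s > 1 - θ`.

(2) If `∑ √p max(|f(p)| - k/p, 0) < ∞`, the sum being over the primes for which `f(p)` is not a
nonnegative real number (in particular if `|f(p)| ≤ k/p` for all `p`), then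
`S_f(N) = Ω(N^(-1/2) (log N)^(k(k+1)/2 - 1))`. -/
theorem result (k : ℕ) (hk : 1 ≤ k) (f : ℕ → ℂ) (hf : IsCMO k f) (C : ℝ)
    (hC : ∀ p : ℕ, p.Prime → ‖f p‖ ≤ C / p) :
    ((Summable fun p : Nat.Primes => Real.sqrt p * max (-((k : ℝ) / p) - (f p).re) 0) →
      ∀ θ : ℝ, 0 < θ → θ ≤ 1 / 2 →
        (∃ B : ℝ, ∀ N : ℕ, 1 ≤ N → ‖∑ n ∈ Icc 1 N, f n‖ ≤ B * (N : ℝ) ^ (-θ)) →
        ∀ s : ℂ, s ≠ 1 → 1 - θ < s.re → riemannZeta s ≠ 0) ∧
    ((Summable fun p : Nat.Primes => if (f p).im = 0 ∧ 0 ≤ (f p).re then 0 else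
        Real.sqrt p * max (‖f p‖ - (k : ℝ) / p) 0) →
      ∃ c : ℝ, 0 < c ∧ ∀ M : ℕ, ∃ N : ℕ, M ≤ N ∧ 1 < N ∧
        c * ((N : ℝ) ^ (-(1 / 2) : ℝ) * (Real.log N) ^ (k * (k + 1) / 2 - 1)) ≤
          ‖∑ n ∈ Icc 1 N, f n‖) :=
  ⟨fun h θ h1 h2 h3 s h4 h5 => Pool.Agent.T6.H78.CK.part_A f hf.one hf.mul k hk hf.zero C hC h θ h1
    h2 h3 s h4 h5,
   fun h => Pool.Agent.T6.H78.CK.part_B f hf.one hf.mul k hk hf.zero C hC h⟩

end Pool.Agent.Results.MP_768c9c_nt.HigherOrder
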