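import Mathlib
import Pool.Agent.T6.H82.OS.Main

/-!
# MP_768c9c_nt: one-sided classes of completely multiplicative functions attached to Dirichlet
characters
-/

set_option autoImplicit false

open Complex Finset

namespace Pool.Agent.Results.MP_768c9c_nt.OneSidedCharacterClass

/-- The sum `g(p) = ∑ i, c i * χ i (p) * p ^ (I * γ i)` of twisted Dirichlet characters modulo
`q`, with weights `c i`. -/
noncomputable def twistedSum (q : ℕ) (ι : Type) [Fintype ι] (c : ι → ℝ)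
    (χ : ι → DirichletCharacter ℂ q) (γ : ι → ℝ) (p : ℕ) : ℂ :=
  ∑ i, (c i : ℂ) * χ i (p : ZMod q) * (p : ℂ) ^ (I * (γ i : ℂ))

open Classical in
/-- The exponent `μ = (M₂ + M₁) / 2`. Here `M₂` is the mean value over the primes of
`(Re g(p))²`, that is, the sum over all pairs `(i, j)` of `c i * c j` times
`([χ i χ j = 1, γ i + γ j = 0] + [χ i = χ j, γ i = γ j]) / 2`, and `M₁` is the mean value of
`∑ i, c i * (χ i (p) * p ^ (I * γ i))²`, that is, the sum of the `c i` with `χ i ^ 2 = 1` and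
`γ i = 0`. For `g = 1` it is equal to `1`. -/
noncomputable def exponent (q : ℕ) (ι : Type) [Fintype ι] (c : ι → ℝ)
    (χ : ι → DirichletCharacter ℂ q) (γ : ι → ℝ) : ℝ :=
  ((∑ i, ∑ j, c i * c j * ((if χ i * χ j = 1 ∧ γ i + γ j = 0 then 1 else 0)
      + (if χ i = χ j ∧ γ i = γ j then 1 else 0)) / 2)
      + ∑ i, c i * (if χ i * χ i = 1 ∧ γ i = 0 then 1 else 0)) / 2

open Classical in
/-- Let `g(p) = ∑ i, c i * χ i (p) * p ^ (I * γ i)` with finitely many Dirichlet characters `χ i`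
modulo `q`, real `γ i` and weights `c i > 0`, such that the total weight of the principal character
with `γ i = 0` is `1` (that is, `g` has mean value `1`). Let `f` be completely multiplicative.

(1) If `f` is in the one-sided class `∑ √p * max (- Re g(p) / p - Re f(p)) 0 < ∞` and
`S_f(N) = O(N ^ (-θ))` with `0 < θ ≤ 1/2`, then no `L(s, χ i)` has a zero with `Re s > 1 - θ`. (It
is assumed that `∑ |f(p)|² p ^ (2 σ) < ∞` for all `σ < θ`, which holds if `|f(p)| ≤ C / p`.)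

(2) If `∑ √p * max (|f(p)| - Re g(p) / p) 0 < ∞`, then
`S_f(N) = Ω(N ^ (-1/2) * (log N) ^ (μ - 1))` with `μ = exponent q ι c χ γ ≥ 1`, so that the
conclusion of the Kahane-Saias question holds for `f`. -/
theorem result (q : ℕ) [NeZero q] (ι : Type) [Fintype ι] (c : ι → ℝ)
    (χ : ι → DirichletCharacter ℂ q) (γ : ι → ℝ) (hc : ∀ i, 0 < c i)
    (hw : ∑ i, (if χ i = 1 ∧ γ i = 0 then c i else 0) = 1)
    (f : ℕ → ℂ) (f1 : f 1 = 1) (hf : ∀ m n : ℕ, 0 < m → 0 < n → f (m * n) = f m * f n) :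
    (∀ θ : ℝ, 0 < θ → θ ≤ 1 / 2 →
      (∀ σ : ℝ, σ < θ → Summable fun p : Nat.Primes => ‖f p‖ ^ 2 * (p : ℝ) ^ (2 * σ)) →
      (Summable fun p : Nat.Primes =>
        Real.sqrt p * max (-((twistedSum q ι c χ γ p).re / p) - (f p).re) 0) →
      (∃ B : ℝ, ∀ N : ℕ, 1 ≤ N → ‖∑ n ∈ Finset.Icc 1 N, f n‖ ≤ B * (N : ℝ) ^ (-θ)) →
      ∀ (i : ι) (s : ℂ), 1 - θ < s.re → (χ i ≠ 1 ∨ s ≠ 1) →
        DirichletCharacter.LFunction (χ i) s ≠ 0) ∧
    ((Summable fun p : Nat.Primes =>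
        Real.sqrt p * max (‖f p‖ - (twistedSum q ι c χ γ p).re / p) 0) →
      1 ≤ exponent q ι c χ γ ∧
      (∃ C : ℝ, 0 < C ∧ ∀ M : ℕ, ∃ N : ℕ, M ≤ N ∧ 1 < N ∧
        C * ((N : ℝ) ^ (-(1 / 2) : ℝ) * (Real.log N) ^ (exponent q ι c χ γ - 1)) ≤
          ‖∑ n ∈ Finset.Icc 1 N, f n‖) ∧
      ∃ C : ℝ, 0 < C ∧ ∀ M : ℕ, ∃ N : ℕ, M ≤ N ∧ 0 < N ∧
        C / Real.sqrt (N : ℝ) ≤ ‖∑ n ∈ Finset.Icc 1 N, f n‖) := by
  have hw' : ∑ i, c i * Pool.T6.H82.KS.ee χ γ i = 1 := by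
    rw [← hw]
    refine Finset.sum_congr rfl fun i _ => ?_
    unfold Pool.T6.H82.KS.ee
    split_ifs <;> simp
  have hexp : exponent q ι c χ γ = Pool.T6.H82.OS.growth c χ γ := by
    rw [Pool.T6.H82.OS.growth_eq]
    unfold exponent
    congr!
  have hge : 1 ≤ exponent q ι c χ γ := by
    rw [hexp]; exact Pool.T6.H82.OS.growth_ge c hc χ γ hw'
  refine ⟨fun θ h0 h1 hsq hs hB i s hs1 hs2 =>
    Pool.T6.H82.OS.part_A c hc χ γ hw' f f1 hf θ h0 h1 hsq hs hB i s hs1 hs2, fun hs => ?_⟩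
  have hB := Pool.T6.H82.OS.part_B c hc χ γ hw' f f1 hf hs
  rw [← hexp] at hB
  refine ⟨hge, hB, ?_⟩
  obtain ⟨C, hC0, hC⟩ := hB
  refine ⟨C, hC0, fun M => ?_⟩
  obtain ⟨N, hN1, hN2, hN3⟩ := hC (max M 3)
  refine ⟨N, (le_max_left _ _).trans hN1, by omega, le_trans ?_ hN3⟩
  have hN : (3 : ℝ) ≤ N := by exact_mod_cast (le_max_right _ _).trans hN1
  have hlog : 1 ≤ Real.log N := by
    rw [Real.le_log_iff_exp_le (by linarith)]
    have := Real.exp_one_lt_d9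
    linarith
  have h2 : 1 ≤ (Real.log N) ^ (exponent q ι c χ γ - 1) :=
    Real.one_le_rpow hlog (by linarith)
  have h3 : C / Real.sqrt N = C * (N : ℝ) ^ (-(1 / 2) : ℝ) := by
    rw [Real.rpow_neg (by positivity), ← Real.sqrt_eq_rpow, div_eq_mul_inv]
  rw [h3]
  refine mul_le_mul_of_nonneg_left ?_ hC0.le
  exact le_mul_of_one_le_right (by positivity) h2

end Pool.Agent.Results.MP_768c9c_nt.OneSidedCharacterClass
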