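import Mathlib
import Pool.Agent.T6.H82.KS.Red

/-!
# MP_768c9c_nt: the Kahane-Saias conclusion for functions built from twisted Dirichlet characters
-/

set_option autoImplicit false

open Complex Finset

namespace Pool.Agent.Results.MP_768c9c_nt.PositiveDefiniteClass

/-- The sum `g(p) = ∑ i, c i * χ i (p) * p ^ (I * γ i)` of twisted Dirichlet characters modulo
`q`, with weights `c i`. -/
noncomputable def twistedSum (q : ℕ) (ι : Type) [Fintype ι] (c : ι → ℝ)
    (χ : ι → DirichletCharacter ℂ q) (γ : ι → ℝ) (p : ℕ) : ℂ :=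
  ∑ i, (c i : ℂ) * χ i (p : ZMod q) * (p : ℂ) ^ (I * (γ i : ℂ))

/-- Let `g(p) = ∑ i, c i * χ i (p) * p ^ (I * γ i)` with finitely many Dirichlet characters `χ i`
modulo `q`, real `γ i` and real weights `c i ≥ 0`. Every completely multiplicative `f` for which
`∑ √p * ‖f p + g(p) / p‖` over the primes is finite satisfies the conclusion of the Kahane-Saias
question: `∑ n ≤ N, f n = Ω (N ^ (-1/2))`. -/
theorem result :
    ∀ (q : ℕ), 0 < q → ∀ (ι : Type) [Fintype ι] (c : ι → ℝ)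
      (χ : ι → DirichletCharacter ℂ q) (γ : ι → ℝ), (∀ i, 0 ≤ c i) →
    ∀ f : ℕ → ℂ,
      f 1 = 1 →
      (∀ m n : ℕ, 0 < m → 0 < n → f (m * n) = f m * f n) →
      (Summable fun p : Nat.Primes =>
        Real.sqrt p * ‖f p + twistedSum q ι c χ γ p / p‖) →
      ∃ C : ℝ, 0 < C ∧ ∀ M : ℕ, ∃ N : ℕ, M ≤ N ∧ 0 < N ∧
        C / Real.sqrt (N : ℝ) ≤ ‖∑ n ∈ Finset.Icc 1 N, f n‖ := by
  intro q hq ι _ c χ γ hc f h1 hf hsum
  have : NeZero q := ⟨hq.ne'⟩
  classical
  have key : ∀ F : ι → ℂ, (∀ i, ¬ 0 < c i → F i = 0) →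
      ∑ i : {i : ι // 0 < c i}, F i = ∑ i, F i := by
    intro F hF
    rw [← Finset.sum_subtype (Finset.univ.filter fun i => 0 < c i) (by simp) F]
    exact Finset.sum_filter_of_ne fun i _ h => by
      by_contra h2
      exact h (hF i h2)
  refine Pool.T6.H82.KS.main (ι := {i : ι // 0 < c i}) (fun i => c i) (fun i => i.2)
    (fun i => χ i) (fun i => γ i) f h1 hf ?_
  refine hsum.congr fun p => ?_
  have e := key (fun i => (c i : ℂ) * χ i ((p : ℕ) : ZMod q) * ((p : ℕ) : ℂ) ^ (I * (γ i : ℂ)))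
    (fun i hi => by
      have : c i = 0 := le_antisymm (not_lt.mp hi) (hc i)
      rw [this]; simp)
  unfold twistedSum
  rw [← e]

end Pool.Agent.Results.MP_768c9c_nt.PositiveDefiniteClass
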