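import Mathlib
import Pool.Agent.T6.H66.UG.Final

set_option autoImplicit false

open Filter Topology

namespace Pool.Agent.Results.MP_768c9c_nt.UniformGap

/-- A uniform effective gap for all CMO functions: if `f` is completely multiplicative and
`‖∑ n ≤ N, f n‖ ≤ A * N ^ (-θ)` for all `N ≥ 1`, with `θ > 0`, then
`(1 - θ) * A ^ (2 + ε) ≥ c ε` (and `(1 - θ) * A ^ (1 + ε) ≥ c ε` for real valued `f`), where `c ε`
does not depend on `f`; and the corresponding zero-free region for the Dirichlet series of a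
completely multiplicative `f` with `‖∑ n ≤ N, f n‖ ≤ B * N ^ σ`. -/
theorem result :
    ∀ ε : ℝ, 0 < ε → ∃ c : ℝ, 0 < c ∧
      (∀ (f : ℕ → ℂ) (A θ : ℝ), f 1 = 1 →
        (∀ m n : ℕ, 0 < m → 0 < n → f (m * n) = f m * f n) → 0 < θ →
        (∀ N : ℕ, 1 ≤ N → ‖∑ n ∈ Finset.Icc 1 N, f n‖ ≤ A * (N : ℝ) ^ (-θ)) →
        c ≤ (1 - θ) * A ^ (2 + ε) ∧
          ((∀ n : ℕ, 0 < n → (f n).im = 0) → c ≤ (1 - θ) * A ^ (1 + ε))) ∧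
      (∀ (f : ℕ → ℂ) (B σ : ℝ) (ρ : ℂ), f 1 = 1 →
        (∀ m n : ℕ, 0 < m → 0 < n → f (m * n) = f m * f n) → 0 ≤ σ →
        (∀ N : ℕ, 1 ≤ N → ‖∑ n ∈ Finset.Icc 1 N, f n‖ ≤ B * (N : ℝ) ^ σ) →
        Tendsto (fun N : ℕ => ∑ n ∈ Finset.Icc 1 N, f n * (n : ℂ) ^ (-ρ)) atTop (𝓝 0) →
        c ≤ (1 + σ - ρ.re) * (B * (1 + ‖ρ‖)) ^ (2 + ε) ∧
          ((∀ n : ℕ, 0 < n → (f n).im = 0) → ρ.im = 0 →
            c ≤ (1 + σ - ρ.re) * (B * (1 + ‖ρ‖)) ^ (1 + ε))) :=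
  fun ε hε => Pool.Agent.T6.H66.UG.main ε hε

end Pool.Agent.Results.MP_768c9c_nt.UniformGap
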